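import Pool.Agent.N54.MW.SurfT

/-!
# The Tauberian Tate conjecture for almost all surfaces in the projective space over a number field, along sequences of parameters of
# any growth

Let `K` be a number field and `ω_0, ..., ω_(g-1)` elements of its ring of integers such that `1` is a linear combination of them with
integral coefficients, for instance an integral basis.  The surface `V` of degree `d` in the projective space of dimension `3` over
`K` is the projective closure of `∑ x_i ^ d + ∑ c_α x ^ α = 0`, where `x = (x_0, x_1, x_2)` and `α` runs through the exponents of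
all monomials of degree less than `d`; the coefficients are `c_α = ∑ m_(α,j) ω_j`.  Here `m_(α,j)` are, for example, the integral
parts of

* `ξ_(α,j) g_(α,j)(t) + c_(α,j)(t)` for any real sequences `g` with `g(t + 1) - g(t) ≥ t ^ (ρ - 1)` (for instance `t`, `t ^ 2`, `√t`,
  `2 ^ t`, `t !`, the primes) and any real sequences `c`, for almost all real vectors `ξ`, or
* `ξ_(α,j) ^ g_(α,j)(t) + c_(α,j)(t)` with strictly increasing integers `g(t)`, for almost all vectors `ξ` with `ξ_(α,j) > 1`,

and so for almost all members of all families of twice continuously differentiable functions whose derivatives are separated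
(`Spread`).  There is one parameter `t` only, and the sequences can grow arbitrarily fast.

The rank of `NS(V)` is `1` for a general surface of degree `d ≥ 4` (the theorem of Noether and Lefschetz).

For a prime ideal `v` of good reduction let `b_v` be the trace of the Frobenius automorphism on `H ^ 2(V)`, and `q_v` the absolute norm
of `v`.  By Deligne's theorem `|b_v - q_v| ≤ (b_2(V) - 1) q_v`, so that `|b_v - q_v| ≤ q_v ^ (1 + η)` if `q_v` is larger than a
number which depends only on `d` and `η > 0`.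

Method: a second moment argument over the parameters (after helper668's one-dimensional metric theorem) shows that for almost all
parameters the vectors of the integral parts are uniformly distributed modulo all moduli up to a power of `N` with a power saving, over
the integers and over the primes (`Pool.Agent.N54.ME`); high moments of sums of local functions over such families
(`Pool.Agent.N647.TS`, helper647); the local means are those of `SurfacesInSpace` (`Pool.Agent.N842.HS`).
-/

set_option autoImplicit false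

namespace Pool.Agent.Results.MP_4589ac_nt.MetricSequences

open Finset NumberField IsDedekindDomain Filter MeasureTheory

/-- The exponents of the monomials of degree less than `d` in the variables `x_0, x_1, x_2`. -/
abbrev Exponent (d : ℕ) : Type := {α : Fin 3 → Fin d // ∑ i, (α i : ℕ) < d}

/-- The coefficients `c_i = ∑ m_(i,j) ω_j`. -/
def coeff {R : Type} [CommRing R] {g D : ℕ} (ω : Fin g → R) (m : Fin (D * g) → ℕ) (i : Fin D) : R :=
  ∑ j, (m (finProdFinEquiv (i, j)) : R) * ω j

section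
variable {d D : ℕ} (e : Fin D ≃ Exponent d)

/-- The polynomial `∑ x_i ^ d + ∑ u_k x ^ (e k)` over the field `κ`, where `e` is an enumeration of the exponents. -/
noncomputable def poly {κ : Type} [Field κ] (u : Fin D → κ) : MvPolynomial (Fin 3) κ :=
  ∑ i, MvPolynomial.X i ^ d + ∑ k, MvPolynomial.C (u k) * ∏ i, MvPolynomial.X i ^ ((e k).1 i : ℕ)

/-- The number of the points over the finite field `κ` with `q` elements of the surface with the coefficients `u`: the number of the
zeros of the polynomial (these are the points outside the plane at infinity), and the number of the nonzero solutions of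
`∑ x_i ^ d = 0` divided by `q - 1` (these are the points at infinity). -/
noncomputable def points (κ : Type) [Field κ] (u : Fin D → κ) : ℝ :=
  (Nat.card {x : Fin 3 → κ // MvPolynomial.eval x (poly e u) = 0} : ℝ) +
    ((Nat.card {x : Fin 3 → κ // ∑ i, x i ^ d = 0} : ℝ) - 1) / ((Nat.card κ : ℝ) - 1)

/-- `d` is not zero in `κ`, and the polynomial and its partial derivatives do not have a common zero over the algebraic closure
of `κ`, so that the surface is smooth. -/
def Smooth (κ : Type) [Field κ] (u : Fin D → κ) : Prop :=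
  (d : κ) ≠ 0 ∧ ¬ ∃ x : Fin 3 → AlgebraicClosure κ,
    MvPolynomial.eval x (poly e (fun k => algebraMap κ (AlgebraicClosure κ) (u k))) = 0 ∧
    ∀ i, MvPolynomial.eval x (MvPolynomial.pderiv i (poly e (fun k => algebraMap κ (AlgebraicClosure κ) (u k)))) = 0

end

section
variable {K : Type} [Field K] [NumberField K] {g d D : ℕ} (ω : Fin g → 𝓞 K) (e : Fin D ≃ Exponent d)

/-- The residue field of the prime ideal `v`. -/
def Residue (v : HeightOneSpectrum (𝓞 K)) : Type := 𝓞 K ⧸ v.asIdeal

noncomputable instance (v : HeightOneSpectrum (𝓞 K)) : Field (Residue v) :=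
  haveI : v.asIdeal.IsMaximal := v.isMaximal
  Ideal.Quotient.field v.asIdeal

/-- The reduction modulo `v`. -/
noncomputable def reduction (v : HeightOneSpectrum (𝓞 K)) : 𝓞 K →+* Residue v := Ideal.Quotient.mk v.asIdeal

/-- The absolute norm `q_v` of the prime ideal `v`. -/
noncomputable def norm (v : HeightOneSpectrum (𝓞 K)) : ℝ := Ideal.absNorm v.asIdeal

/-- The reduction of `V` modulo `v` is smooth. -/
def IsGood (m : Fin (D * g) → ℕ) (v : HeightOneSpectrum (𝓞 K)) : Prop :=
  Smooth e (Residue v) (fun k => reduction v (coeff ω m k))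

/-- The trace `b_v` of the Frobenius automorphism on `H ^ 2(V)` at a prime ideal `v` of good reduction: the number of the points of
the reduction of `V` is `1 + b_v + q_v ^ 2`. -/
noncomputable def b (m : Fin (D * g) → ℕ) (v : HeightOneSpectrum (𝓞 K)) : ℝ :=
  points e (Residue v) (fun k => reduction v (coeff ω m k)) - 1 - norm v ^ 2

open Classical in
/-- `b_v` if `|b_v - q_v| ≤ q_v ^ (1 + η)`, and `q_v` otherwise. -/
noncomputable def truncated (η : ℝ) (m : Fin (D * g) → ℕ) (v : HeightOneSpectrum (𝓞 K)) : ℝ :=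
  if |b ω e m v - norm v| ≤ norm v ^ (1 + η) then b ω e m v else norm v

/-- The weighted sum of `b_v log(q_v) / q_v` (with the truncated `b_v`) over the prime ideals of good reduction with `q_v ≤ T`. -/
noncomputable def tateSum (η : ℝ) (w : HeightOneSpectrum (𝓞 K) → ℝ) (T : ℕ) (m : Fin (D * g) → ℕ) : ℝ :=
  ∑ᶠ v ∈ {v : HeightOneSpectrum (𝓞 K) | IsGood ω e m v ∧ Ideal.absNorm v.asIdeal ≤ T},
    w v * (truncated ω e η m v * Real.log (norm v) / norm v)

/-- The weighted sum of `log(q_v)` over the prime ideals with `q_v ≤ T`. -/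
noncomputable def mainSum (w : HeightOneSpectrum (𝓞 K) → ℝ) (T : ℕ) : ℝ :=
  ∑ᶠ v ∈ {v : HeightOneSpectrum (𝓞 K) | Ideal.absNorm v.asIdeal ≤ T}, w v * Real.log (norm v)

end

/-- The derivatives of the consecutive functions `F t` are separated on `[u, v]` and their second derivatives increase. -/
def Spread (ρ u v : ℝ) (F : ℕ → ℝ → ℝ) : Prop :=
  (∀ t, ContDiff ℝ 2 (F t)) ∧ ∃ t₀ : ℕ, ∀ t, t₀ ≤ t → ∀ x ∈ Set.Icc u v,
    (t : ℝ) ^ (ρ - 1) ≤ deriv (F (t + 1)) x - deriv (F t) x ∧
      deriv (deriv (F t)) x ≤ deriv (deriv (F (t + 1))) x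

open Classical in
/-- If the integers `z t j` are nonnegative for all large `t`, then there are `κ > 0` and `y₀` such that for all `y ≥ y₀`, all `N` and
all sets `W T` of at most `T ^ B` weights with values in `[-1, 1]`, defined on the prime ideals of `K`, all the integers `t` in
`(N, 2 N]` with at most `N / y ^ A` exceptions, and all the primes `t` in `(N, 2 N]` with the exception of at most a proportion
`1 / y ^ A` of them, have the following property: for the surface with the numbers `m j = z t j`, all integers `T` with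
`y ≤ T ≤ N ^ κ` and all weights `w ∈ W T` the weighted sum of the numbers `b_v log(q_v) / q_v` over the prime ideals of good reduction
with `q_v ≤ T` is the weighted sum of the numbers `log(q_v)` over the prime ideals with `q_v ≤ T`, up to the error
`T ^ (1 / 2 + η + δ)`. -/
def AlmostAll {K : Type} [Field K] [NumberField K] {g d D : ℕ} (ω : Fin g → 𝓞 K) (e : Fin D ≃ Exponent d) (δ η : ℝ) (A B : ℕ)
    (z : ℕ → Fin (D * g) → ℤ) : Prop :=
  (∀ᶠ t : ℕ in atTop, ∀ j, 0 ≤ z t j) → ∃ κ : ℝ, 0 < κ ∧ ∃ y₀ : ℕ, ∀ y N : ℕ, y₀ ≤ y →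
    ∀ W : ℕ → Set (HeightOneSpectrum (𝓞 K) → ℝ), (∀ T, (W T).Finite ∧ (W T).ncard ≤ T ^ B) → (∀ T, ∀ w ∈ W T, ∀ v, |w v| ≤ 1) →
      (((Ioc N (2 * N)).filter fun t => ¬ ∀ T : ℕ, y ≤ T → (T : ℝ) ≤ (N : ℝ) ^ κ → ∀ w ∈ W T,
        |tateSum ω e η w T (fun j => (z t j).toNat) - mainSum w T| ≤ (T : ℝ) ^ (1 / 2 + η + δ)).card : ℝ) ≤ 1 / (y : ℝ) ^ A * N ∧
      ((((Ioc N (2 * N)).filter Nat.Prime).filter fun t => ¬ ∀ T : ℕ, y ≤ T → (T : ℝ) ≤ (N : ℝ) ^ κ → ∀ w ∈ W T,
        |tateSum ω e η w T (fun j => (z t j).toNat) - mainSum w T| ≤ (T : ℝ) ^ (1 / 2 + η + δ)).card : ℝ) ≤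
          1 / (y : ℝ) ^ A * ((Ioc N (2 * N)).filter Nat.Prime).card

section
variable {K : Type} [Field K] [NumberField K] {g d D : ℕ} (ω : Fin g → 𝓞 K) (e : Fin D ≃ Exponent d)

lemma norm_pos (v : HeightOneSpectrum (𝓞 K)) : 0 < norm v := by
  unfold norm
  have : Ideal.absNorm v.asIdeal ≠ 0 := by
    rw [Ne, Ideal.absNorm_eq_zero_iff]
    exact v.ne_bot
  exact_mod_cast Nat.pos_of_ne_zero this

lemma good_iff (m : Fin (D * g) → ℕ) (v : HeightOneSpectrum (𝓞 K)) : IsGood ω e m v ↔
    Pool.Agent.N842.HS.Smv (N := 3) e (Pool.Agent.N842.HS.Res v) (fun k => Pool.Agent.N842.HS.rho v (Pool.Agent.N842.HS.cf ω m k)) := Iff.rfl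

lemma b_eq (m : Fin (D * g) → ℕ) (v : HeightOneSpectrum (𝓞 K)) : b ω e m v - norm v =
    norm v * Pool.Agent.N842.HS.trv (N := 3) e (Pool.Agent.N842.HS.Res v) (fun k => Pool.Agent.N842.HS.rho v (Pool.Agent.N842.HS.cf ω m k)) := by
  have hq := norm_pos v
  unfold Pool.Agent.N842.HS.trv
  rw [Pool.Agent.N842.HS.card_Res]
  have h1 : Pool.Agent.N842.HS.pts (N := 3) e (Pool.Agent.N842.HS.Res v) (fun k => Pool.Agent.N842.HS.rho v (Pool.Agent.N842.HS.cf ω m k)) =
    points e (Residue v) (fun k => reduction v (coeff ω m k)) := rfl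
  rw [h1]
  show _ = norm v * ((-1) ^ (3 - 1) * ((points e (Residue v) (fun k => reduction v (coeff ω m k)) - ∑ i ∈ range 3, (norm v) ^ i) / Real.sqrt (norm v) ^ (3 - 1)))
  have h2 : Real.sqrt (norm v) ^ (3 - 1) = norm v := Real.sq_sqrt hq.le
  rw [h2]
  unfold b
  rw [sum_range_succ, sum_range_succ, sum_range_one]
  field_simp
  ring

lemma term_eq (η : ℝ) (m : Fin (D * g) → ℕ) (v : HeightOneSpectrum (𝓞 K)) (hv : IsGood ω e m v) :
    truncated ω e η m v * Real.log (norm v) / norm v =
      (Pool.Agent.N842.HS.F0 (N := 3) e v (Pool.Agent.N842.HS.cf ω m) + Pool.Agent.N842.HS.F1 (N := 3) e η v (Pool.Agent.N842.HS.cf ω m)) *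
        Real.log (Ideal.absNorm v.asIdeal) := by
  classical
  have hq := norm_pos v
  have hb := b_eq ω e m v
  obtain ⟨t, ht⟩ : ∃ t : ℝ, t = Pool.Agent.N842.HS.trv (N := 3) e (Pool.Agent.N842.HS.Res v)
    (fun k => Pool.Agent.N842.HS.rho v (Pool.Agent.N842.HS.cf ω m k)) := ⟨_, rfl⟩
  rw [← ht] at hb
  have h1 : |b ω e m v - norm v| ≤ norm v ^ (1 + η) ↔ |t| ≤ norm v ^ η := by
    rw [hb, abs_mul, abs_of_pos hq, Real.rpow_add hq, Real.rpow_one]
    constructor
    · exact fun h => le_of_mul_le_mul_left h hq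
    · exact fun h => mul_le_mul_of_nonneg_left h hq.le
  unfold truncated Pool.Agent.N842.HS.F0 Pool.Agent.N842.HS.F1
  rw [if_pos ((good_iff ω e m v).1 hv), ← ht]
  have hc : (Nat.card (Pool.Agent.N842.HS.Res v) : ℝ) = norm v := by
    rw [Pool.Agent.N842.HS.card_Res]
    rfl
  have hlog : Real.log (Ideal.absNorm v.asIdeal) = Real.log (norm v) := rfl
  rw [hc, hlog]
  by_cases h : |t| ≤ norm v ^ η
  · rw [if_pos (h1.2 h), if_pos ⟨(good_iff ω e m v).1 hv, h⟩]
    have h2 : b ω e m v = norm v * (1 + t) := by linarith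
    rw [h2]
    field_simp
  · rw [if_neg (fun h' => h (h1.1 h')), if_neg (fun h' => h h'.2), add_zero, one_mul]
    field_simp

lemma sum_eq (η : ℝ) (w : HeightOneSpectrum (𝓞 K) → ℝ) (T : ℕ) (m : Fin (D * g) → ℕ) :
    tateSum ω e η w T m - mainSum w T = ∑ v ∈ Pool.Agent.N842.HS.VT K T, w v *
      ((Pool.Agent.N842.HS.F0 (N := 3) e v (Pool.Agent.N842.HS.cf ω m) + Pool.Agent.N842.HS.F1 (N := 3) e η v (Pool.Agent.N842.HS.cf ω m) - 1) *
        Real.log (Ideal.absNorm v.asIdeal)) := by
  classical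
  have h1 : {v : HeightOneSpectrum (𝓞 K) | IsGood ω e m v ∧ Ideal.absNorm v.asIdeal ≤ T} =
      (((Pool.Agent.N842.HS.VT K T).filter (fun v => IsGood ω e m v) : Finset (HeightOneSpectrum (𝓞 K))) : Set (HeightOneSpectrum (𝓞 K))) := by
    ext v
    rw [mem_coe, mem_filter, Pool.Agent.N842.HS.mem_VT]
    exact and_comm
  have h2 : {v : HeightOneSpectrum (𝓞 K) | Ideal.absNorm v.asIdeal ≤ T} =
      ((Pool.Agent.N842.HS.VT K T : Finset (HeightOneSpectrum (𝓞 K))) : Set (HeightOneSpectrum (𝓞 K))) := by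
    ext v
    rw [mem_coe, Pool.Agent.N842.HS.mem_VT]
    exact Iff.rfl
  unfold tateSum mainSum
  rw [h1, h2, finsum_mem_coe_finset, finsum_mem_coe_finset, sum_filter, ← sum_sub_distrib]
  refine sum_congr rfl fun v _ => ?_
  by_cases hv : IsGood ω e m v
  · rw [if_pos hv, term_eq ω e η m v hv]
    unfold norm
    ring
  · have h3 : Pool.Agent.N842.HS.F0 (N := 3) e v (Pool.Agent.N842.HS.cf ω m) = 0 := if_neg hv
    have h4 : Pool.Agent.N842.HS.F1 (N := 3) e η v (Pool.Agent.N842.HS.cf ω m) = 0 := if_neg (fun h => hv h.1)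
    rw [if_neg hv, h3, h4]
    unfold norm
    ring

end

/-- **The Tauberian Tate conjecture for surfaces, for almost all parameters.** Let `K` be a number field, `ω_0, ..., ω_(g-1)` in `𝓞 K`
such that `1` is in the group generated by them, and let a degree `d`, an even number `h` with `2 ≤ h ≤ d`, `δ > 0`, `0 < ρ ≤ 1` and
integers `A, B ≥ 0` be given; put `η = 1 / (2 (h - 1))`. The property `AlmostAll` holds for almost all members of the following
families: (1) the integral parts of `F_j(t) (ξ_j)` for all functions with separated derivatives, (2) the integral parts of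
`ξ_j g_j(t) + c_j(t)` for all real sequences `g_j` with `g_j(t + 1) - g_j(t) ≥ t ^ (ρ - 1)` for large `t` and all real sequences `c_j`,
(3) the integral parts of `ξ_j ^ g_j(t) + c_j(t)`, `ξ_j > 1`, for all strictly increasing sequences `g_j` of natural numbers and all
real sequences `c_j`. -/
theorem result (K : Type) [Field K] [NumberField K] (g d D h : ℕ) (ω : Fin g → 𝓞 K)
    (hω : (1 : 𝓞 K) ∈ Submodule.span ℤ (Set.range ω)) (e : Fin D ≃ Exponent d) (h2 : 2 ≤ h) (he : Even h) (hd : h ≤ d)
    (ρ : ℝ) (hρ : 0 < ρ) (hρ1 : ρ ≤ 1) (δ : ℝ) (hδ : 0 < δ) (A B : ℕ) (η : ℝ) (hη : η = 1 / (2 * ((h : ℝ) - 1))) :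
    (∀ (u v : Fin (D * g) → ℝ) (F : Fin (D * g) → ℕ → ℝ → ℝ), (∀ j, Spread ρ (u j) (v j) (F j)) →
      ∀ᵐ ξ : Fin (D * g) → ℝ, (∀ j, ξ j ∈ Set.Ioc (u j) (v j)) →
        AlmostAll ω e δ η A B (fun t j => ⌊F j t (ξ j)⌋)) ∧
    (∀ a c : Fin (D * g) → ℕ → ℝ, (∀ j, ∀ᶠ t : ℕ in atTop, (t : ℝ) ^ (ρ - 1) ≤ a j (t + 1) - a j t) →
      ∀ᵐ ξ : Fin (D * g) → ℝ, AlmostAll ω e δ η A B (fun t j => ⌊ξ j * a j t + c j t⌋)) ∧
    (∀ (a : Fin (D * g) → ℕ → ℕ) (c : Fin (D * g) → ℕ → ℝ), (∀ j, StrictMono (a j)) →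
      ∀ᵐ ξ : Fin (D * g) → ℝ, (∀ j, 1 < ξ j) → AlmostAll ω e δ η A B (fun t j => ⌊ξ j ^ a j t + c j t⌋)) := by
  have hg : 0 < g := by
    rcases Nat.eq_zero_or_pos g with h0 | h0
    · subst h0
      rw [Set.range_eq_empty, Submodule.span_empty, Submodule.mem_bot] at hω
      exact absurd hω one_ne_zero
    · exact h0
  have hD : 0 < D := Pool.Agent.N842.HS.D_pos (N := 3) e (by omega : 0 < d)
  haveI : Nonempty (Fin (D * g)) := ⟨⟨0, Nat.mul_pos hD hg⟩⟩
  refine Pool.Agent.N54.ME.three hρ hρ1 (AlmostAll ω e δ η A B) fun z hz hpos => ?_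
  have hW : Pool.Agent.N54.MW.WW (fun t j => (z t j).toNat) (Pool.Agent.N54.ME.kap ρ (Fintype.card (Fin (D * g)))) :=
    Pool.Agent.N54.MW.ww_of_ws hz (hpos.mono fun t ht j => (Int.toNat_of_nonneg (ht j)).symm)
  obtain ⟨κ, hκ, y₀, h1⟩ := Pool.Agent.N54.MW.surfT (N := 3) e (by norm_num) (by omega) g h ω hω hg
    (Pool.Agent.N54.ME.kap_pos hρ _) hW h2 he hd δ hδ A B
  refine ⟨κ, hκ, y₀, fun y N hy W hW hW1 => ?_⟩
  refine h1 y N hy W hW hW1 (fun m => ∀ T : ℕ, y ≤ T → (T : ℝ) ≤ (N : ℝ) ^ κ → ∀ w ∈ W T,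
        |tateSum ω e η w T m - mainSum w T| ≤ (T : ℝ) ^ (1 / 2 + η + δ)) fun m hm T hyT hTr w hw => ?_
  have h3 := hm T hyT hTr w hw
  rw [sum_eq, hη]
  exact h3

end Pool.Agent.Results.MP_4589ac_nt.MetricSequences
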