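import Mathlib
import Pool.Agent.X280.HG.LogW
import Pool.Agent.Y722.HS.Avg
import Pool.Agent.N534.XH.Good

/-!
# The normal law of the Tauberian averages of the traces on `H²`

Let `V_c` be the product of `r` hypersurfaces `F_i = 0` in `ℙ^{n_i + 1}` over `ℚ`, `F_i` a form of degree `d_i ≥ 3` with integer coefficients,
`n_i ≥ 1`; `c` is the vector of all coefficients. By Künneth's formula the trace `b_p(V_c)` of the Frobenius on `H²` at a prime `p` of good
reduction is the sum of `r p`, of the traces on the primitive parts of `H²` of the factors of dimension `2` and of the products of the traces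
on `H¹` of two different factors of dimension `1`. For almost all `c` the rank of `NS(V_c / ℚ)` is `r`.

The theorem: for random `c` in the box `|c_μ| ≤ H` the sum of `w_p b_p(V_c) / p` over the primes of good reduction in a finite set `P` of primes
is asymptotically normally distributed with mean value `r ∑ w_p` and variance `v ∑ w_p²`, where `v` is the number of the surfaces and of the
pairs of curves among the factors. In particular the Tauberian average of the question is asymptotically normal about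
`r · T⁻¹ ∑_{p ≤ T} log p` with the standard deviation `√(v ∑_{p ≤ T} (log p)²) / T ~ √(v log T / T)`, for `T` up to a small power of `H`.
-/

set_option autoImplicit false

open MeasureTheory ProbabilityTheory

namespace Pool.Agent.Results.MP_4589ac_nt.NormalLaw

/-- The monomials of degree `d` in the variables `x_0, …, x_n`, given by their exponents. -/
abbrev Exponent (n d : ℕ) : Type := {m : Fin (n + 1) → Fin (d + 1) // ∑ i, (m i : ℕ) = d}

/-- The form of degree `d` in `n + 1` variables with the coefficients `c`. -/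
noncomputable def form {n d : ℕ} {R : Type} [CommSemiring R] (c : Exponent n d → R) : MvPolynomial (Fin (n + 1)) R :=
  ∑ m, MvPolynomial.C (c m) * ∏ i, MvPolynomial.X i ^ (m.1 i : ℕ)

/-- The hypersurface `F = 0` in the projective space over an algebraically closed field is smooth. -/
def IsSmooth {n : ℕ} {K : Type} [Field K] (F : MvPolynomial (Fin (n + 1)) K) : Prop :=
  ∀ x : Fin (n + 1) → K, x ≠ 0 → MvPolynomial.eval x F = 0 → ∃ i, MvPolynomial.eval x (MvPolynomial.pderiv i F) ≠ 0

/-- The number of the points modulo the prime `p` of the hypersurface: the number of the nonzero vectors at which the form vanishes divided by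
`p - 1`. -/
noncomputable def numPoints {n d : ℕ} (c : Exponent n d → ℤ) (p : ℕ) : ℝ :=
  (Nat.card {x : Fin (n + 1) → ZMod p // x ≠ 0 ∧ MvPolynomial.eval x (form fun μ => (c μ : ZMod p)) = 0} : ℝ) / (p - 1)

/-- The coefficients of `r` forms, the form number `i` of degree `d i` in `n i + 2` variables. -/
abbrev Coeff {r : ℕ} (n d : Fin r → ℕ) : Type := Σ i, Exponent (n i + 1) (d i)

variable {r : ℕ} {n d : Fin r → ℕ}

/-- All the hypersurfaces are smooth modulo `p`. -/
def IsGood (c : Coeff n d → ℤ) (p : ℕ) : Prop :=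
  ∃ h : p.Prime, haveI : Fact p.Prime := ⟨h⟩
    ∀ i, IsSmooth (form fun μ => ((c ⟨i, μ⟩ : ℤ) : AlgebraicClosure (ZMod p)))

/-- The trace of the Frobenius on the primitive part of `H²` of the factor number `i`, a surface. -/
noncomputable def surfaceTrace (c : Coeff n d → ℤ) (i : Fin r) (p : ℕ) : ℝ :=
  numPoints (fun μ => c ⟨i, μ⟩) p - ((p : ℝ) ^ 2 + p + 1)

/-- The trace of the Frobenius on `H¹` of the factor number `i`, a curve. -/
noncomputable def curveTrace (c : Coeff n d → ℤ) (i : Fin r) (p : ℕ) : ℝ :=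
  (p : ℝ) + 1 - numPoints (fun μ => c ⟨i, μ⟩) p

/-- The indices of the surfaces. -/
def surfaces (n : Fin r → ℕ) : Finset (Fin r) := Finset.univ.filter fun i => n i = 2

/-- The pairs of indices of curves. -/
def curvePairs (n : Fin r → ℕ) : Finset (Fin r × Fin r) :=
  Finset.univ.filter fun q => q.1 < q.2 ∧ n q.1 = 1 ∧ n q.2 = 1

/-- The trace `b_p(V_c)` of the Frobenius on `H²` of the product of the hypersurfaces. -/
noncomputable def b (c : Coeff n d → ℤ) (p : ℕ) : ℝ :=
  r * p + ∑ i ∈ surfaces n, surfaceTrace c i p + ∑ q ∈ curvePairs n, curveTrace c q.1 p * curveTrace c q.2 p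

/-- The number of the surfaces and of the pairs of curves among the factors. -/
def varying (n : Fin r → ℕ) : ℕ := (surfaces n).card + (curvePairs n).card

/-- The primes up to `T`. -/
def primesUpTo (T : ℕ) : Finset ℕ := (Finset.range (T + 1)).filter Nat.Prime

open Classical in
/-- The sum of `w_p b_p(V_c) / p` over the primes of good reduction in `P`. -/
noncomputable def goodSum (w : ℕ → ℝ) (P : Finset ℕ) (c : Coeff n d → ℤ) : ℝ :=
  ∑ p ∈ P.filter (IsGood c), w p * (b c p / p)

/-- The average `T⁻¹ ∑_{p ≤ T, p ∉ R} b_p(V_c) log p / p` of the question. -/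
noncomputable def tateAverage (T : ℕ) (c : Coeff n d → ℤ) : ℝ := goodSum (fun p => Real.log p) (primesUpTo T) c / T

/-- The proportion of the vectors `c` in the box `|c_μ| ≤ H` with the property `Q`. -/
noncomputable def proportion {ι : Type} [Fintype ι] (H : ℕ) (Q : (ι → ℤ) → Prop) : ℝ :=
  ({c : ι → ℤ | (∀ μ, |c μ| ≤ H) ∧ Q c}.ncard : ℝ) / (2 * H + 1 : ℝ) ^ Fintype.card ι

/-- The good residues. -/
def GG (n d : Fin r → ℕ) (p : ℕ) (c : (Σ i, Pool.Agent.Y722.HS.Mon (n i + 1) (d i)) → ZMod p) : Prop :=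
  ∃ h : p.Prime, haveI : Fact p.Prime := ⟨h⟩
    ∀ i, IsSmooth (form fun μ => algebraMap (ZMod p) (AlgebraicClosure (ZMod p)) (c ⟨i, μ⟩))

theorem good_iff (c : Coeff n d → ℤ) (p : ℕ) : IsGood c p ↔ GG n d p (Pool.Agent.Y722.HS.red p c) := by
  unfold IsGood GG Pool.Agent.Y722.HS.red
  refine exists_congr fun h => forall_congr' fun i => ?_
  simp only [map_intCast]

open Pool.Agent.Y722.HS Pool.Agent.X280.BP Pool.Agent.X280.HG Pool.Agent.N534.XH in
theorem EM_block (n d : Fin r → ℕ) (i : Fin r) (p : ℕ) [NeZero p] (f : (Mon (n i + 1) (d i) → ZMod p) → ℝ) :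
    EM p (fun c : (Σ i, Mon (n i + 1) (d i)) → ZMod p => f (fun μ => c ⟨i, μ⟩)) = EM p f := by
  classical
  have h := EM_sigma (κ := fun i => Mon (n i + 1) (d i)) p
    (fun j => if h : j = i then (fun x => f (h ▸ x)) else fun _ => 1)
  have e1 : ∀ c : (Σ i, Mon (n i + 1) (d i)) → ZMod p, ∏ j, (if h : j = i then
      (fun x : Mon (n j + 1) (d j) → ZMod p => f (h ▸ x)) else fun _ => 1) (fun μ => c ⟨j, μ⟩) =
      f (fun μ => c ⟨i, μ⟩) := by
    intro c
    rw [Finset.prod_eq_single i]
    · simp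
    · intro j _ hj
      simp [hj]
    · intro h
      exact absurd (Finset.mem_univ i) h
  have e2 : ∏ j, EM p (if h : j = i then (fun x : Mon (n j + 1) (d j) → ZMod p => f (h ▸ x)) else fun _ => 1) =
      EM p f := by
    rw [Finset.prod_eq_single i]
    · simp
    · intro j _ hj
      simp only [hj, dite_false]
      exact EM_const' p 1
    · intro h
      exact absurd (Finset.mem_univ i) h
  rw [← e2, ← h]
  congr 1
  funext c
  exact (e1 c).symm

open Pool.Agent.Y722.HS Pool.Agent.X280.BP Pool.Agent.X280.HG Pool.Agent.N534.XH in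
theorem EM_GG (n d : Fin r → ℕ) (hd : ∀ i, 3 ≤ d i) (p : ℕ) (hp : p.Prime) [NeZero p] :
    EM p (ib (GG n d) p) ≤ (∑ i, DD (n i + 1) (d i)) / p := by
  classical
  have : Fact p.Prime := ⟨hp⟩
  have h1 : EM p (ib (GG n d) p) ≤ EM p (fun c : (Σ i, Mon (n i + 1) (d i)) → ZMod p =>
      ∑ i, bd p (fun μ => c ⟨i, μ⟩)) := by
    refine EM_mono' p _ _ fun c => ?_
    have h0 : ∀ i, 0 ≤ bd p (fun μ => c ⟨i, μ⟩) := fun i => bd_nonneg p _
    by_cases hG : GG n d p c
    · unfold ib
      rw [if_pos hG]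
      exact Finset.sum_nonneg fun i _ => h0 i
    · unfold ib
      rw [if_neg hG]
      have hex : ∃ i, IsBad p (fun μ => c ⟨i, μ⟩) := by
        by_contra hno
        push Not at hno
        refine hG ⟨hp, fun i => ?_⟩
        have h2 := isSmooth_of_not_isBad p (by have := hd i; omega : 1 ≤ d i) _ (hno i)
        have e : MvPolynomial.map (algebraMap (ZMod p) (AlgebraicClosure (ZMod p)))
            (Pool.Agent.Y722.HS.form fun μ => c ⟨i, μ⟩) =
            Pool.Agent.Results.MP_4589ac_nt.NormalLaw.form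
              (fun μ => algebraMap (ZMod p) (AlgebraicClosure (ZMod p)) (c ⟨i, μ⟩)) := by
          unfold Pool.Agent.Y722.HS.form Pool.Agent.Results.MP_4589ac_nt.NormalLaw.form
          simp [map_sum, map_prod]
        rw [e] at h2
        exact h2
      obtain ⟨i, hi⟩ := hex
      have h3 : bd p (fun μ => c ⟨i, μ⟩) = 1 := by
        unfold bd
        rw [if_pos hi]
      rw [← h3]
      exact Finset.single_le_sum (fun i _ => h0 i) (Finset.mem_univ i)
  refine h1.trans ?_
  rw [EM_sum', Finset.sum_div]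
  refine Finset.sum_le_sum fun i _ => ?_
  rw [EM_block n d i p (fun x => bd p x)]
  exact EM_bd (n i + 1) (d i) p (by have := hd i; omega)

open Pool.Agent.Y722.HS Pool.Agent.X280.BP Pool.Agent.X280.HG Pool.Agent.N534.XH in
theorem weighted (n d : Fin r → ℕ) (hn : ∀ i, 1 ≤ n i) (hd : ∀ i, 3 ≤ d i) (hv : 1 ≤ varying n)
    (δ : ℝ) (hδ : 0 < δ) (u ε : ℝ) (hε : 0 < ε) :
    ∃ K : ℕ, ∀ (P : Finset ℕ) (w : ℕ → ℝ) (y H : ℕ), (∀ p ∈ P, p.Prime ∧ p ≤ y) →
      (∀ p ∈ P, |w p| ≤ 1) → δ * P.card ≤ ∑ p ∈ P, w p ^ 2 → K ≤ P.card → y ^ K ≤ H →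
      |proportion H (fun c : Coeff n d → ℤ => goodSum w P c ≤ r * ∑ p ∈ P, w p + u * √(varying n * ∑ p ∈ P, w p ^ 2)) -
        (gaussianReal 0 1).real (Set.Iic u)| ≤ ε := by
  classical
  obtain ⟨B, hB⟩ := cd_aC n d hn hd
  obtain ⟨C, hC⟩ := ld_multi (sets n) (fun _ => 1) hB (empty_notMem n)
  have hvd : varying n = vdim n := rfl
  have hsum : ∑ S ∈ sets n, ((fun _ => 1 : Finset (Fin r) → ℝ) S) ^ 2 = vdim n := by
    rw [sum_sets]
    simp only [one_pow, Finset.sum_const, nsmul_eq_mul, mul_one]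
    unfold vdim
    push_cast
    ring
  rw [hsum] at hC
  have hv0 : (0 : ℝ) < vdim n := by exact_mod_cast hv
  obtain ⟨K, hK⟩ := good_law hC (by linarith : (0 : ℝ) < vdim n - 0 ^ 2) (GG n d)
    (fun p hp _ => EM_GG n d hd p hp) (-(r : ℝ)) hδ u hε
  refine ⟨K, fun P w y H hP hw hvar hcard hH => ?_⟩
  have h1 := hK P w y H hP hw hvar hcard hH
  rw [show (vdim n : ℝ) - 0 ^ 2 = vdim n by ring] at h1
  unfold proportion
  refine le_trans (le_of_eq ?_) h1
  congr 3
  congr 2
  ext c
  simp only [Set.mem_ofPred_eq]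
  refine and_congr_right fun _ => ?_
  have e1 : ∑ p ∈ P, w p * (if GG n d p (red p c) then
      US (κ := fun i => Mon (n i + 1) (d i)) (aC n d) (sets n) (fun _ => 1) p (red p c) else -(r : ℝ)) =
      goodSum w P c - r * ∑ p ∈ P, w p := by
    unfold goodSum
    rw [Finset.sum_filter, Finset.mul_sum, ← Finset.sum_sub_distrib]
    refine Finset.sum_congr rfl fun p hp => ?_
    by_cases hg : IsGood c p
    · rw [if_pos hg, if_pos ((good_iff c p).1 hg), ← b2_eq c p (hP p hp).1]
      have : b2 c p = b c p := rfl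
      rw [this]
      ring
    · rw [if_neg hg, if_neg (fun h => hg ((good_iff c p).2 h))]
      ring
  rw [e1, hvd]
  constructor <;> intro h <;> linarith

open Pool.Agent.X280.HG in
/-- **The normal law of the Tauberian averages.** -/
theorem result {r : ℕ} (n d : Fin r → ℕ) (hn : ∀ i, 1 ≤ n i) (hd : ∀ i, 3 ≤ d i) (hv : 1 ≤ varying n) (u ε : ℝ) (hε : 0 < ε) :
    (∀ δ : ℝ, 0 < δ → ∃ K : ℕ, ∀ (P : Finset ℕ) (w : ℕ → ℝ) (y H : ℕ), (∀ p ∈ P, p.Prime ∧ p ≤ y) →
      (∀ p ∈ P, |w p| ≤ 1) → δ * P.card ≤ ∑ p ∈ P, w p ^ 2 → K ≤ P.card → y ^ K ≤ H →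
      |proportion H (fun c : Coeff n d → ℤ => goodSum w P c ≤ r * ∑ p ∈ P, w p + u * √(varying n * ∑ p ∈ P, w p ^ 2)) -
        (gaussianReal 0 1).real (Set.Iic u)| ≤ ε) ∧
    ∃ K : ℕ, ∀ T H : ℕ, K ≤ T → T ^ K ≤ H →
      |proportion H (fun c : Coeff n d → ℤ => tateAverage T c ≤ r * ((∑ p ∈ primesUpTo T, Real.log p) / T) +
        u * (√(varying n * ∑ p ∈ primesUpTo T, Real.log p ^ 2) / T)) - (gaussianReal 0 1).real (Set.Iic u)| ≤ ε := by
  classical
  refine ⟨fun δ hδ => weighted n d hn hd hv δ hδ u ε hε, ?_⟩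
  obtain ⟨K1, hK1⟩ := weighted n d hn hd hv (1 / 8) (by norm_num) u ε hε
  obtain ⟨K2, hK2⟩ := Filter.eventually_atTop.1 (many_primes.and log_weights)
  refine ⟨max (max K1 K2) (K1 ^ 2 + 3), fun T H hT hH => ?_⟩
  have hT1 : K2 ≤ T := (le_max_right _ _).trans ((le_max_left _ _).trans hT)
  have hT2 : K1 ^ 2 + 3 ≤ T := (le_max_right _ _).trans hT
  have hT0 : (0 : ℝ) < T := by exact_mod_cast (by omega : 0 < T)
  obtain ⟨h1, h2⟩ := hK2 T hT1
  have hlog : 0 < Real.log T := Real.log_pos (by exact_mod_cast (by omega : 1 < T))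
  have hPP : primesUpTo T = Pool.Agent.X280.HG.primesUpTo T := rfl
  have hcard : K1 ≤ (primesUpTo T).card := by
    have h3 : (K1 : ℝ) ≤ √(T : ℝ) := by
      apply Real.le_sqrt_of_sq_le
      exact_mod_cast (by omega : K1 ^ 2 ≤ T)
    have h4 : 0 ≤ √(T : ℝ) := Real.sqrt_nonneg _
    have h5 : (K1 : ℝ) ≤ ((Pool.Agent.X280.HG.primesUpTo T).card : ℝ) := by linarith
    rw [hPP]
    exact_mod_cast h5
  have hfin := hK1 (primesUpTo T) (fun p => Real.log p / Real.log T) T H
    (fun p hp => (((mem_primesUpTo.1 hp)).symm)) (fun p hp => by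
      have h3 := mem_primesUpTo.1 hp
      have hp1 : (1 : ℝ) ≤ p := by exact_mod_cast h3.2.one_lt.le
      rw [abs_of_nonneg (div_nonneg (Real.log_nonneg hp1) hlog.le), div_le_one hlog]
      exact Real.log_le_log (by linarith) (by exact_mod_cast h3.1)) h2 hcard
    ((Nat.pow_le_pow_right (by omega) ((le_max_left _ _).trans (le_max_left _ _))).trans hH)
  refine le_trans (le_of_eq ?_) hfin
  congr 2
  unfold proportion
  congr 3
  ext c
  simp only [Set.mem_ofPred_eq]
  refine and_congr_right fun _ => ?_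
  have e1 : tateAverage T c = Real.log T / T * goodSum (fun p => Real.log p / Real.log T) (primesUpTo T) c := by
    unfold tateAverage goodSum
    rw [div_mul_eq_mul_div, Finset.mul_sum]
    congr 1
    refine Finset.sum_congr rfl fun p _ => ?_
    field_simp
  have e2 : ∑ p ∈ primesUpTo T, Real.log p / Real.log T = (∑ p ∈ primesUpTo T, Real.log p) / Real.log T := by
    rw [Finset.sum_div]
  have e3 : √(varying n * ∑ p ∈ primesUpTo T, (Real.log p / Real.log T) ^ 2) =
      √(varying n * ∑ p ∈ primesUpTo T, Real.log p ^ 2) / Real.log T := by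
    have e4 : (varying n : ℝ) * ∑ p ∈ primesUpTo T, (Real.log p / Real.log T) ^ 2 =
        (varying n * ∑ p ∈ primesUpTo T, Real.log p ^ 2) / Real.log T ^ 2 := by
      simp only [div_pow]
      rw [← Finset.sum_div, mul_div_assoc]
    rw [e4, Real.sqrt_div' _ (sq_nonneg _), Real.sqrt_sq hlog.le]
  rw [e1, e2, e3]
  obtain ⟨S, hS⟩ : ∃ S : ℝ, S = goodSum (fun p => Real.log p / Real.log T) (primesUpTo T) c := ⟨_, rfl⟩
  obtain ⟨σ, hσ⟩ : ∃ σ : ℝ, σ = √(varying n * ∑ p ∈ primesUpTo T, Real.log p ^ 2) := ⟨_, rfl⟩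
  obtain ⟨θ, hθ⟩ : ∃ θ : ℝ, θ = ∑ p ∈ primesUpTo T, Real.log p := ⟨_, rfl⟩
  rw [← hS, ← hσ, ← hθ]
  have e5 : (r : ℝ) * (θ / T) + u * (σ / T) = Real.log T / T * (r * (θ / Real.log T) + u * (σ / Real.log T)) := by
    field_simp
  rw [e5]
  have h7 : 0 < Real.log T / T := by positivity
  exact ⟨fun h => le_of_mul_le_mul_left h h7, fun h => mul_le_mul_of_nonneg_left h h7.le⟩

end Pool.Agent.Results.MP_4589ac_nt.NormalLaw
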