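import Pool.Agent.N647.TS.SurfT

/-!
# The Tauberian Tate conjecture for almost all surfaces in the projective space over a number field whose coefficients are the
integer parts of the values at the same integer, or prime, of generalised polynomials

Let `K` be a number field and `ω_0, ..., ω_(g-1)` elements of its ring of integers such that `1` is a linear combination of them with
integral coefficients, for instance an integral basis.  The surface `V` of degree `d` in the projective space of dimension `3` over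
`K` is the projective closure of `∑ x_i ^ d + ∑ c_α x ^ α = 0`, where `x = (x_0, x_1, x_2)` and `α` runs through the exponents of
all monomials of degree less than `d`; the coefficients are `c_α = ∑ m_(α,j) ω_j` with `m_(α,j) = ⌊P_(α,j)(t)⌋`, where the
`P_(α,j)` are generalised polynomials.  So there is one parameter `t` only: for `t ≤ N` only `N` of the about
`N ^ (the sum of the leading exponents)` surfaces of the corresponding box occur.

The rank of `NS(V)` is `1` for a general surface of degree `d ≥ 4` (the theorem of Noether and Lefschetz).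

For a prime ideal `v` of good reduction let `b_v` be the trace of the Frobenius automorphism on `H ^ 2(V)`, and `q_v` the absolute norm
of `v`.  By Deligne's theorem `|b_v - q_v| ≤ (b_2(V) - 1) q_v`, so that `|b_v - q_v| ≤ q_v ^ (1 + η)` if `q_v` is larger than a
number which depends only on `d` and `η > 0`.

Method: by exponential sums the vectors of the integer parts are uniformly distributed modulo all moduli up to a power of
`N`, over the integers and over the primes (`Pool.Agent.N666.TM.fl_well`); high moments of sums of local functions over such families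
(`Pool.Agent.N647.TS`); the local means are those of `SurfacesInSpace` (`Pool.Agent.N842.HS`).
-/

set_option autoImplicit false

namespace Pool.Agent.Results.MP_4589ac_nt.ThinSequences

open Finset NumberField IsDedekindDomain

/-- The exponents of the monomials of degree less than `d` in the variables `x_0, x_1, x_2`. -/
abbrev Exponent (d : ℕ) : Type := {α : Fin 3 → Fin d // ∑ i, (α i : ℕ) < d}

/-- The coefficients `c_i = ∑ m_(i,j) ω_j`. -/
def coeff {R : Type} [CommRing R] {g D : ℕ} (ω : Fin g → R) (m : Fin (D * g) → ℕ) (i : Fin D) : R :=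
  ∑ j, (m (finProdFinEquiv (i, j)) : R) * ω j

section
variable {d D : ℕ} (e : Fin D ≃ Exponent d)

/-- The polynomial `∑ x_i ^ d + ∑ u_k x ^ (e k)` over the field `κ`, where `e` is an enumeration of the exponents. -/
noncomputable def poly {κ : Type} [Field κ] (u : Fin D → κ) : MvPolynomial (Fin 3) κ :=
  ∑ i, MvPolynomial.X i ^ d + ∑ k, MvPolynomial.C (u k) * ∏ i, MvPolynomial.X i ^ ((e k).1 i : ℕ)

/-- The number of the points over the finite field `κ` with `q` elements of the surface with the coefficients `u`: the number of the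
zeros of the polynomial (these are the points outside the plane at infinity), and the number of the nonzero solutions of
`∑ x_i ^ d = 0` divided by `q - 1` (these are the points at infinity). -/
noncomputable def points (κ : Type) [Field κ] (u : Fin D → κ) : ℝ :=
  (Nat.card {x : Fin 3 → κ // MvPolynomial.eval x (poly e u) = 0} : ℝ) +
    ((Nat.card {x : Fin 3 → κ // ∑ i, x i ^ d = 0} : ℝ) - 1) / ((Nat.card κ : ℝ) - 1)

/-- `d` is not zero in `κ`, and the polynomial and its partial derivatives do not have a common zero over the algebraic closure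
of `κ`, so that the surface is smooth. -/
def Smooth (κ : Type) [Field κ] (u : Fin D → κ) : Prop :=
  (d : κ) ≠ 0 ∧ ¬ ∃ x : Fin 3 → AlgebraicClosure κ,
    MvPolynomial.eval x (poly e (fun k => algebraMap κ (AlgebraicClosure κ) (u k))) = 0 ∧
    ∀ i, MvPolynomial.eval x (MvPolynomial.pderiv i (poly e (fun k => algebraMap κ (AlgebraicClosure κ) (u k)))) = 0

end

section
variable {K : Type} [Field K] [NumberField K] {g d D : ℕ} (ω : Fin g → 𝓞 K) (e : Fin D ≃ Exponent d)

/-- The residue field of the prime ideal `v`. -/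
def Residue (v : HeightOneSpectrum (𝓞 K)) : Type := 𝓞 K ⧸ v.asIdeal

noncomputable instance (v : HeightOneSpectrum (𝓞 K)) : Field (Residue v) :=
  haveI : v.asIdeal.IsMaximal := v.isMaximal
  Ideal.Quotient.field v.asIdeal

/-- The reduction modulo `v`. -/
noncomputable def reduction (v : HeightOneSpectrum (𝓞 K)) : 𝓞 K →+* Residue v := Ideal.Quotient.mk v.asIdeal

/-- The absolute norm `q_v` of the prime ideal `v`. -/
noncomputable def norm (v : HeightOneSpectrum (𝓞 K)) : ℝ := Ideal.absNorm v.asIdeal

/-- The reduction of `V` modulo `v` is smooth. -/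
def IsGood (m : Fin (D * g) → ℕ) (v : HeightOneSpectrum (𝓞 K)) : Prop :=
  Smooth e (Residue v) (fun k => reduction v (coeff ω m k))

/-- The trace `b_v` of the Frobenius automorphism on `H ^ 2(V)` at a prime ideal `v` of good reduction: the number of the points of
the reduction of `V` is `1 + b_v + q_v ^ 2`. -/
noncomputable def b (m : Fin (D * g) → ℕ) (v : HeightOneSpectrum (𝓞 K)) : ℝ :=
  points e (Residue v) (fun k => reduction v (coeff ω m k)) - 1 - norm v ^ 2

open Classical in
/-- `b_v` if `|b_v - q_v| ≤ q_v ^ (1 + η)`, and `q_v` otherwise. -/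
noncomputable def truncated (η : ℝ) (m : Fin (D * g) → ℕ) (v : HeightOneSpectrum (𝓞 K)) : ℝ :=
  if |b ω e m v - norm v| ≤ norm v ^ (1 + η) then b ω e m v else norm v

/-- The weighted sum of `b_v log(q_v) / q_v` (with the truncated `b_v`) over the prime ideals of good reduction with `q_v ≤ T`. -/
noncomputable def tateSum (η : ℝ) (w : HeightOneSpectrum (𝓞 K) → ℝ) (T : ℕ) (m : Fin (D * g) → ℕ) : ℝ :=
  ∑ᶠ v ∈ {v : HeightOneSpectrum (𝓞 K) | IsGood ω e m v ∧ Ideal.absNorm v.asIdeal ≤ T},
    w v * (truncated ω e η m v * Real.log (norm v) / norm v)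

/-- The weighted sum of `log(q_v)` over the prime ideals with `q_v ≤ T`. -/
noncomputable def mainSum (w : HeightOneSpectrum (𝓞 K) → ℝ) (T : ℕ) : ℝ :=
  ∑ᶠ v ∈ {v : HeightOneSpectrum (𝓞 K) | Ideal.absNorm v.asIdeal ≤ T}, w v * Real.log (norm v)

end

/-- `c` is the largest exponent of the generalised polynomial `∑ b x t ^ x`, `x ∈ F`; it is positive and not an integer and has a
positive coefficient. -/
def Admissible (F : Finset ℝ) (b : ℝ → ℝ) (c : ℝ) : Prop :=
  c ∈ F ∧ (∀ x ∈ F, x ≤ c) ∧ 0 < c ∧ (∀ m : ℕ, c ≠ m) ∧ 0 < b c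

/-- The integer part `⌊P_j(t)⌋` of the value of the generalised polynomial number `j` (and `0` if the value is negative, which is
the case for finitely many `t` only). -/
noncomputable def value {D : ℕ} (F : Fin D → Finset ℝ) (b : Fin D → ℝ → ℝ) (t : ℕ) (j : Fin D) : ℕ :=
  ⌊∑ x ∈ F j, b j x * (t : ℝ) ^ x⌋₊

section
variable {K : Type} [Field K] [NumberField K] {g d D : ℕ} (ω : Fin g → 𝓞 K) (e : Fin D ≃ Exponent d)

lemma norm_pos (v : HeightOneSpectrum (𝓞 K)) : 0 < norm v := by
  unfold norm
  have : Ideal.absNorm v.asIdeal ≠ 0 := by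
    rw [Ne, Ideal.absNorm_eq_zero_iff]
    exact v.ne_bot
  exact_mod_cast Nat.pos_of_ne_zero this

lemma good_iff (m : Fin (D * g) → ℕ) (v : HeightOneSpectrum (𝓞 K)) : IsGood ω e m v ↔
    Pool.Agent.N842.HS.Smv (N := 3) e (Pool.Agent.N842.HS.Res v) (fun k => Pool.Agent.N842.HS.rho v (Pool.Agent.N842.HS.cf ω m k)) := Iff.rfl

lemma b_eq (m : Fin (D * g) → ℕ) (v : HeightOneSpectrum (𝓞 K)) : b ω e m v - norm v =
    norm v * Pool.Agent.N842.HS.trv (N := 3) e (Pool.Agent.N842.HS.Res v) (fun k => Pool.Agent.N842.HS.rho v (Pool.Agent.N842.HS.cf ω m k)) := by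
  have hq := norm_pos v
  unfold Pool.Agent.N842.HS.trv
  rw [Pool.Agent.N842.HS.card_Res]
  have h1 : Pool.Agent.N842.HS.pts (N := 3) e (Pool.Agent.N842.HS.Res v) (fun k => Pool.Agent.N842.HS.rho v (Pool.Agent.N842.HS.cf ω m k)) =
    points e (Residue v) (fun k => reduction v (coeff ω m k)) := rfl
  rw [h1]
  show _ = norm v * ((-1) ^ (3 - 1) * ((points e (Residue v) (fun k => reduction v (coeff ω m k)) - ∑ i ∈ range 3, (norm v) ^ i) / Real.sqrt (norm v) ^ (3 - 1)))
  have h2 : Real.sqrt (norm v) ^ (3 - 1) = norm v := Real.sq_sqrt hq.le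
  rw [h2]
  unfold b
  rw [sum_range_succ, sum_range_succ, sum_range_one]
  field_simp
  ring

lemma term_eq (η : ℝ) (m : Fin (D * g) → ℕ) (v : HeightOneSpectrum (𝓞 K)) (hv : IsGood ω e m v) :
    truncated ω e η m v * Real.log (norm v) / norm v =
      (Pool.Agent.N842.HS.F0 (N := 3) e v (Pool.Agent.N842.HS.cf ω m) + Pool.Agent.N842.HS.F1 (N := 3) e η v (Pool.Agent.N842.HS.cf ω m)) *
        Real.log (Ideal.absNorm v.asIdeal) := by
  classical
  have hq := norm_pos v
  have hb := b_eq ω e m v
  obtain ⟨t, ht⟩ : ∃ t : ℝ, t = Pool.Agent.N842.HS.trv (N := 3) e (Pool.Agent.N842.HS.Res v)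
    (fun k => Pool.Agent.N842.HS.rho v (Pool.Agent.N842.HS.cf ω m k)) := ⟨_, rfl⟩
  rw [← ht] at hb
  have h1 : |b ω e m v - norm v| ≤ norm v ^ (1 + η) ↔ |t| ≤ norm v ^ η := by
    rw [hb, abs_mul, abs_of_pos hq, Real.rpow_add hq, Real.rpow_one]
    constructor
    · exact fun h => le_of_mul_le_mul_left h hq
    · exact fun h => mul_le_mul_of_nonneg_left h hq.le
  unfold truncated Pool.Agent.N842.HS.F0 Pool.Agent.N842.HS.F1
  rw [if_pos ((good_iff ω e m v).1 hv), ← ht]
  have hc : (Nat.card (Pool.Agent.N842.HS.Res v) : ℝ) = norm v := by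
    rw [Pool.Agent.N842.HS.card_Res]
    rfl
  have hlog : Real.log (Ideal.absNorm v.asIdeal) = Real.log (norm v) := rfl
  rw [hc, hlog]
  by_cases h : |t| ≤ norm v ^ η
  · rw [if_pos (h1.2 h), if_pos ⟨(good_iff ω e m v).1 hv, h⟩]
    have h2 : b ω e m v = norm v * (1 + t) := by linarith
    rw [h2]
    field_simp
  · rw [if_neg (fun h' => h (h1.1 h')), if_neg (fun h' => h h'.2), add_zero, one_mul]
    field_simp

lemma sum_eq (η : ℝ) (w : HeightOneSpectrum (𝓞 K) → ℝ) (T : ℕ) (m : Fin (D * g) → ℕ) :
    tateSum ω e η w T m - mainSum w T = ∑ v ∈ Pool.Agent.N842.HS.VT K T, w v *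
      ((Pool.Agent.N842.HS.F0 (N := 3) e v (Pool.Agent.N842.HS.cf ω m) + Pool.Agent.N842.HS.F1 (N := 3) e η v (Pool.Agent.N842.HS.cf ω m) - 1) *
        Real.log (Ideal.absNorm v.asIdeal)) := by
  classical
  have h1 : {v : HeightOneSpectrum (𝓞 K) | IsGood ω e m v ∧ Ideal.absNorm v.asIdeal ≤ T} =
      (((Pool.Agent.N842.HS.VT K T).filter (fun v => IsGood ω e m v) : Finset (HeightOneSpectrum (𝓞 K))) : Set (HeightOneSpectrum (𝓞 K))) := by
    ext v
    rw [mem_coe, mem_filter, Pool.Agent.N842.HS.mem_VT]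
    exact and_comm
  have h2 : {v : HeightOneSpectrum (𝓞 K) | Ideal.absNorm v.asIdeal ≤ T} =
      ((Pool.Agent.N842.HS.VT K T : Finset (HeightOneSpectrum (𝓞 K))) : Set (HeightOneSpectrum (𝓞 K))) := by
    ext v
    rw [mem_coe, Pool.Agent.N842.HS.mem_VT]
    exact Iff.rfl
  unfold tateSum mainSum
  rw [h1, h2, finsum_mem_coe_finset, finsum_mem_coe_finset, sum_filter, ← sum_sub_distrib]
  refine sum_congr rfl fun v _ => ?_
  by_cases hv : IsGood ω e m v
  · rw [if_pos hv, term_eq ω e η m v hv]
    unfold norm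
    ring
  · have h3 : Pool.Agent.N842.HS.F0 (N := 3) e v (Pool.Agent.N842.HS.cf ω m) = 0 := if_neg hv
    have h4 : Pool.Agent.N842.HS.F1 (N := 3) e η v (Pool.Agent.N842.HS.cf ω m) = 0 := if_neg (fun h => hv h.1)
    rw [if_neg hv, h3, h4]
    unfold norm
    ring

end

open Classical in
/-- Let `K` be a number field, `ω_0, ..., ω_(g-1)` in `𝓞 K` such that `1` is in the group generated by them, and let a degree `d`, an
even number `h` with `2 ≤ h ≤ d`, `δ > 0` and integers `A, B ≥ 0` be given; put `η = 1 / (2 (h - 1))`.  Let for every `j < D g`, where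
`D` is the number of the monomials of degree less than `d` in three variables, a generalised polynomial `P_j(t) = ∑ a j x t ^ x` be
given, with distinct leading exponents which are positive and not integers and have positive coefficients (for example
`t ^ (j + √2)`).  There are `κ > 0` and `y₀` such that for all `y ≥ y₀` and all `N` the following holds.

Let for every `T` an arbitrary set `W T` of at most `T ^ B` weights with values in `[-1, 1]`, defined on the prime ideals of `K`, be
given.  Then for all the integers `t` in `(N, 2 N]` with at most `N / y ^ A` exceptions, and for all the primes `t` in `(N, 2 N]` with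
the exception of at most a proportion `1 / y ^ A` of them, the surface `V` over `K` with the numbers `m j = ⌊P_j(t)⌋` has the
following property: for all integers `T` with `y ≤ T ≤ N ^ κ` and all weights `w ∈ W T` the weighted sum of the numbers
`b_v log(q_v) / q_v` over the prime ideals of good reduction with `q_v ≤ T` is the weighted sum of the numbers `log(q_v)` over the
prime ideals with `q_v ≤ T`, up to the error `T ^ (1 / 2 + η + δ)`. -/
theorem result (K : Type) [Field K] [NumberField K] (g d D h : ℕ) (ω : Fin g → 𝓞 K)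
    (hω : (1 : 𝓞 K) ∈ Submodule.span ℤ (Set.range ω)) (e : Fin D ≃ Exponent d) (h2 : 2 ≤ h) (he : Even h) (hd : h ≤ d)
    (F : Fin (D * g) → Finset ℝ) (a : Fin (D * g) → ℝ → ℝ) (c : Fin (D * g) → ℝ) (ha : ∀ j, Admissible (F j) (a j) (c j))
    (hc : Function.Injective c) (δ : ℝ) (hδ : 0 < δ) (A B : ℕ) (η : ℝ) (hη : η = 1 / (2 * ((h : ℝ) - 1))) :
    ∃ κ : ℝ, 0 < κ ∧ ∃ y₀ : ℕ, ∀ y N : ℕ, y₀ ≤ y →
    ∀ W : ℕ → Set (HeightOneSpectrum (𝓞 K) → ℝ), (∀ T, (W T).Finite ∧ (W T).ncard ≤ T ^ B) → (∀ T, ∀ w ∈ W T, ∀ v, |w v| ≤ 1) →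
      (((Ioc N (2 * N)).filter fun t => ¬ ∀ T : ℕ, y ≤ T → (T : ℝ) ≤ (N : ℝ) ^ κ → ∀ w ∈ W T,
        |tateSum ω e η w T (value F a t) - mainSum w T| ≤ (T : ℝ) ^ (1 / 2 + η + δ)).card : ℝ) ≤ 1 / (y : ℝ) ^ A * N ∧
      ((((Ioc N (2 * N)).filter Nat.Prime).filter fun t => ¬ ∀ T : ℕ, y ≤ T → (T : ℝ) ≤ (N : ℝ) ^ κ → ∀ w ∈ W T,
        |tateSum ω e η w T (value F a t) - mainSum w T| ≤ (T : ℝ) ^ (1 / 2 + η + δ)).card : ℝ) ≤
          1 / (y : ℝ) ^ A * ((Ioc N (2 * N)).filter Nat.Prime).card := by
  have hg : 0 < g := by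
    rcases Nat.eq_zero_or_pos g with h0 | h0
    · subst h0
      rw [Set.range_eq_empty, Submodule.span_empty, Submodule.mem_bot] at hω
      exact absurd hω one_ne_zero
    · exact h0
  obtain ⟨κ, hκ, y₀, h1⟩ := Pool.Agent.N647.TS.surfT (N := 3) e (by norm_num) (by omega) g h ω hω hg (P := F) (a := a) (c := c) ha hc
    h2 he hd δ hδ A B
  refine ⟨κ, hκ, y₀, fun y N hy W hW hW1 => ?_⟩
  refine h1 y N hy W hW hW1 (fun m => ∀ T : ℕ, y ≤ T → (T : ℝ) ≤ (N : ℝ) ^ κ → ∀ w ∈ W T,
        |tateSum ω e η w T m - mainSum w T| ≤ (T : ℝ) ^ (1 / 2 + η + δ)) fun m hm T hyT hTr w hw => ?_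
  have h3 := hm T hyT hTr w hw
  rw [sum_eq, hη]
  exact h3

end Pool.Agent.Results.MP_4589ac_nt.ThinSequences
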